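import Pool.Agent.Helper90.MZ.StmtsZ

/-!
# MP_79eb7e_lc, part Z: classification of the ENI classes over `Q` (ZC)
-/

set_option autoImplicit false

namespace Pool.Agent.Helper90.MZ

open Pool.Agent.Helper90.TS

variable {V G : Type} [Group G] [MulAction G V]

/-- atomic models over countable sets exist -/
theorem zc_atm (hM : ST_MDLB) (hP : ST_PRIM) (X : Ctx V G) (A : Set V) (hA : A.Countable) :
    ∃ M, Atm X A M := by
  obtain ⟨N, hAN, hN⟩ := st_SATM V G X A hA
  obtain ⟨M, _, h⟩ := hP V G X A N ((hM V G X).1 N hN) hAN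
  exact ⟨M, h⟩

/-- the rest of the basis -/
def zc_R {κ : Type} (z : κ → Fin 1 → V) (c : κ → Set V) (e : κ → ℕ) (n : ℕ) : Set V :=
  ⋃ i ∈ {i | n ≤ e i}, (Set.range (z i) ∪ c i)

theorem zc_R_sub {κ : Type} (z : κ → Fin 1 → V) (c : κ → Set V) (e : κ → ℕ) (n : ℕ) {i : κ}
    (h : n ≤ e i) : Set.range (z i) ∪ c i ⊆ zc_R z c e n :=
  Set.subset_biUnion_of_mem (u := fun i => Set.range (z i) ∪ c i) h

theorem zc_R_anti {κ : Type} (z : κ → Fin 1 → V) (c : κ → Set V) (e : κ → ℕ) {n m : ℕ}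
    (h : n ≤ m) : zc_R z c e m ⊆ zc_R z c e n := by
  intro x hx
  simp only [zc_R, Set.mem_iUnion] at hx ⊢
  obtain ⟨i, hi, hx⟩ := hx
  exact ⟨i, le_trans h hi, hx⟩

/-- the step of the induction -/
theorem zc_step (hD : ST_DOM) (X : Ctx V G) (a M N S R : Set V) (hM : Mdl X M)
    (haM : a ⊆ M) (hS : S.Countable) (hR : R.Countable) (hN : Atm X (M ∪ S) N)
    (h1 : SI X a M (S ∪ R)) (h2 : SI X a S R) : SI X a N R := by
  have hMc := hM.1
  have hac : a.Countable := hMc.mono haM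
  have hNc : N.Countable := hN.1.1
  have hMN : M ⊆ N := Set.subset_union_left.trans hN.2.1
  obtain ⟨h3, h4⟩ := (si_union hac hMc hS hR).1 h1
  have h5 : SI X (a ∪ S) R M := si_symm (hac.union hS) hMc hR h4
  have h6 : SI X a R S := si_symm hac hS hR h2
  have h7 : SI X a R (S ∪ M) := si_trans hac hR hS hMc h6 h5
  rw [Set.union_comm] at h7
  obtain ⟨h8, h9⟩ := (si_union hac hR hMc hS).1 h7
  rw [Set.union_eq_self_of_subset_left haM] at h9
  have h10 := (hD V G X M S R N hM hS hR hN h9).1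
  have h11 : SI X a R (M ∪ N) := si_trans' hR hMc hNc haM h8 h10
  rw [Set.union_eq_self_of_subset_left hMN] at h11
  exact si_symm hac hR hNc h11

/-- the chain of models -/
theorem zc_chain (hM : ST_MDLB) (hP : ST_PRIM) (hD : ST_DOM) (X : Ctx V G) (Q a M : Set V)
    {κ : Type} (z : κ → Fin 1 → V) (c : κ → Set V) (e : κ → ℕ)
    (he : Function.Injective e) (hQ : Q.Countable) (hMm : Mdl X M) (haM : a ⊆ M)
    (hMQ : SI X a M Q) (hinQ : ∀ i, Set.range (z i) ∪ c i ⊆ Q)
    (hind : Ind X a (fun i => Set.range (z i) ∪ c i)) :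
    ∃ N : ℕ → Set V, N 0 = M ∧ (∀ n, Mdl X (N n)) ∧ (∀ n, a ⊆ N n) ∧
      (∀ n, N n ⊆ N (n + 1)) ∧ (∀ n, SI X a (N n) (zc_R z c e n)) ∧
      (∀ i, Atm X (N (e i) ∪ (Set.range (z i) ∪ c i)) (N (e i + 1))) ∧
      ∀ n, (¬ ∃ i, e i = n) → N (n + 1) = N n := by
  have hac : a.Countable := hMm.1.mono haM
  have hRQ : ∀ n, zc_R z c e n ⊆ Q := by
    intro n x hx
    simp only [zc_R, Set.mem_iUnion] at hx
    obtain ⟨i, _, hx⟩ := hx
    exact hinQ i hx
  have hRc : ∀ n, (zc_R z c e n).Countable := fun n => hQ.mono (hRQ n)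
  have hSc : ∀ i, (Set.range (z i) ∪ c i).Countable := fun i => hQ.mono (hinQ i)
  have hstep : ∀ (n : ℕ) (K : Set V), ∃ K' : Set V, Mdl X K →
      (∀ i, e i = n → Atm X (K ∪ (Set.range (z i) ∪ c i)) K') ∧
      ((¬ ∃ i, e i = n) → K' = K) := by
    intro n K
    by_cases hK : Mdl X K
    · by_cases hi : ∃ i, e i = n
      · obtain ⟨i, hi⟩ := hi
        obtain ⟨K', hK'⟩ := zc_atm hM hP X (K ∪ (Set.range (z i) ∪ c i)) (hK.1.union (hSc i))
        refine ⟨K', fun _ => ⟨?_, fun h => absurd ⟨i, hi⟩ h⟩⟩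
        intro j hj
        have : j = i := he (hj.trans hi.symm)
        rw [this]
        exact hK'
      · exact ⟨K, fun _ => ⟨fun i h => absurd ⟨i, h⟩ hi, fun _ => rfl⟩⟩
    · exact ⟨K, fun h => absurd h hK⟩
  choose F hF using hstep
  let N : ℕ → Set V := fun n => Nat.rec M (fun n K => F n K) n
  have hN0 : N 0 = M := rfl
  have hNs : ∀ n, N (n + 1) = F n (N n) := fun n => rfl
  have key : ∀ n, Mdl X (N n) ∧ a ⊆ N n ∧ SI X a (N n) (zc_R z c e n) := by
    intro n
    induction n with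
    | zero =>
      rw [hN0]
      exact ⟨hMm, haM, si_right hac hMm.1 hQ (hRQ 0) hMQ⟩
    | succ n ih =>
      obtain ⟨h1, h2, h3⟩ := ih
      obtain ⟨h4, h5⟩ := hF n (N n) h1
      by_cases hi : ∃ i, e i = n
      · obtain ⟨i, hi⟩ := hi
        have h6 := h4 i hi
        rw [← hNs] at h6
        refine ⟨h6.1, h2.trans (Set.subset_union_left.trans h6.2.1), ?_⟩
        refine zc_step hD X a (N n) (N (n + 1)) (Set.range (z i) ∪ c i) (zc_R z c e (n + 1)) h1 h2
          (hSc i) (hRc _) h6 ?_ ?_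
        · refine si_right hac h1.1 (hRc n) ?_ h3
          exact Set.union_subset (zc_R_sub z c e n hi.ge) (zc_R_anti z c e (Nat.le_succ n))
        · have h7 := hind {i} {j | n + 1 ≤ e j} (by
            rw [Set.disjoint_singleton_left]
            intro h
            have h' : n + 1 ≤ e i := h
            omega)
          rw [Set.biUnion_singleton] at h7
          exact h7
      · have h6 := h5 hi
        rw [← hNs] at h6
        rw [h6]
        exact ⟨h1, h2, si_right hac h1.1 (hRc n) (zc_R_anti z c e (Nat.le_succ n)) h3⟩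
  have hatm : ∀ i, Atm X (N (e i) ∪ (Set.range (z i) ∪ c i)) (N (e i + 1)) := by
    intro i
    have h := (hF (e i) (N (e i)) (key (e i)).1).1 i rfl
    rwa [← hNs] at h
  have hno : ∀ n, (¬ ∃ i, e i = n) → N (n + 1) = N n := by
    intro n hn
    have h := (hF n (N n) (key n).1).2 hn
    rwa [← hNs] at h
  refine ⟨N, hN0, fun n => (key n).1, fun n => (key n).2.1, ?_, fun n => (key n).2.2, hatm, hno⟩
  intro n
  by_cases hi : ∃ i, e i = n
  · obtain ⟨i, rfl⟩ := hi
    exact Set.subset_union_left.trans (hatm i).2.1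
  · rw [hno n hi]

theorem st_ZC (h1 : ST_ZA) (h2 : ST_NF) (h3 : ST_SUPB) (h4 : ST_SUPU) (h5 : ST_DOM)
    (h6 : ST_ATMB) (h7 : ST_PRIM) (h8 : ST_MDLB) (h9 : ST_RLB) : ST_ZC := by
  intro V G _ _ X Q a d s t κ _ l z c hFew hZS hWQ r hr hrQ
  have hQ : Mdl X Q := hZS.mdl
  have hac : a.Countable := hZS.afin.countable
  obtain ⟨M, hM, haM, hMQ⟩ := (h8 V G X).2.1 a Q a le_rfl hac hQ.1 (si_self_left hac hQ.1 le_rfl)
  obtain ⟨e, he⟩ := Countable.exists_injective_nat κ
  have hinQ : ∀ i, Set.range (z i) ∪ c i ⊆ Q := fun i =>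
    Set.union_subset (hWQ.inQ i).1 (hWQ.inQ i).2
  obtain ⟨N, hN0, hNm, haN, hNN, hNR, hatm, hno⟩ :=
    zc_chain h8 h7 h5 X Q a M z c e he hQ.1 hM haM hMQ hinQ hWQ.ind
  have hU : Mdl X (⋃ n, N n) := (h8 V G X).2.2.2.2.2.1 N hNm hNN
  have hWU : WW a z c ⊆ ⋃ n, N n := by
    refine Set.union_subset ((haN 0).trans (Set.subset_iUnion N 0)) ?_
    refine Set.iUnion_subset fun i => ?_
    exact (Set.subset_union_right.trans (hatm i).2.1).trans (Set.subset_iUnion N (e i + 1))
  have hSp : Sp X (⋃ n, N n) r := h1 V G X Q a d s t κ l z c hFew hZS hWQ r hr hrQ _ hU hWU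
  have hex : ∃ n, Sp X (N n) r := (h4 V G X).2.2.2.2.2.2.1 N r hr.1 hNN hSp
  classical
  obtain ⟨n, hn, hmin⟩ : ∃ n, Sp X (N n) r ∧ ∀ m < n, ¬ Sp X (N m) r :=
    ⟨Nat.find hex, Nat.find_spec hex, fun m hm => Nat.find_min hex hm⟩
  rcases n with _ | m
  · left
    rw [hN0] at hn
    exact h3 V G X a M r haM hM hr.1 (si_right hac hM.1 hQ.1 hrQ hMQ) hn
  · right
    have hnm := hmin m (Nat.lt_succ_self m)
    have hi : ∃ i, e i = m := by
      by_contra hi
      rw [hno m hi] at hn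
      exact hnm hn
    obtain ⟨i, rfl⟩ := hi
    have hmc := (hNm (e i)).1
    have hzc : (Set.range (z i)).Countable := Set.countable_range _
    have hRc : (zc_R z c e (e i)).Countable := by
      refine hQ.1.mono ?_
      intro x hx
      simp only [zc_R, Set.mem_iUnion] at hx
      obtain ⟨i, _, hx⟩ := hx
      exact hinQ i hx
    have hsi : SI X a (N (e i)) (Set.range (z i)) :=
      si_right hac hmc hRc
        (Set.subset_union_left.trans (zc_R_sub z c e (e i) le_rfl)) (hNR (e i))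
    have hsi' : SI X a (Set.range (z i)) (N (e i)) := si_symm hac hmc hzc hsi
    have hp := hWQ.tsr (l i)
    have hrl : Rl X (t (l i)) (N (e i)) (z i) := by
      have h := (h9 V G X (t (l i)) hp.1 a hac).2.2.2.1 (z i) (N (e i)) hmc (hWQ.rl i) (by
        rw [Set.union_eq_self_of_subset_left hp.2]
        exact hsi')
      rwa [Set.union_eq_self_of_subset_left (haN (e i))] at h
    obtain ⟨⟨n, f, hf, D, hD, hfD, hDY⟩, _, _⟩ := hWQ.z3 i
    have hisl : Isl X (N (e i) ∪ Set.range (z i)) f := by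
      refine ⟨D, ov_mono X (Set.union_subset_union_left _ (haN (e i))) hD, hfD, ?_⟩
      intro x hx
      have h := (hDY (N (e i)) hmc hsi).2 x hx
      refine eqv_mono ?_ h
      intro v hv
      rcases hv with hv | hv
      · exact Or.inr hv
      · exact Or.inl (Or.inr hv)
    have hatm' : Atm X (N (e i) ∪ Set.range (z i)) (N (e i + 1)) := by
      refine (h6 V G X (N (e i) ∪ Set.range (z i)) (N (e i + 1))).2.1 (Fin n) f hisl ?_
      rw [hf, Set.union_assoc]
      exact hatm i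
    refine ⟨i, ?_, ?_⟩
    · exact h2 V G X a (N (e i)) (N (e i + 1)) (t (l i)) r (z i) hFew hZS.afin hp.1 hp.2
        (hNm (e i)) (haN (e i)) hrl hatm' hr hn hnm
    · intro h
      refine hmin 0 (Nat.succ_pos _) ?_
      rw [hN0]
      exact h M hM haM

end Pool.Agent.Helper90.MZ
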